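import Mathlib
import Pool.Agent.V1113.JacLite

/-!
# The nilpotence class of a restricted Lie algebra is not determined by its restricted enveloping algebra
-/

set_option autoImplicit false
set_option linter.all false

namespace Pool.Agent.Results.MP_26769e_al.ClassNotDetermined

universe u

section defs

variable {F : Type u} [Field F] {L : Type u} [LieRing L]

/-- The nested bracket `[a_1, [a_2, ..., [a_r, x]]]`, where `a_i` is `x` or `y` as the `i`-th entry of
the list is true or false. -/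
def nest (x y : L) (l : List Bool) : L := l.foldr (fun b z => ⁅if b then x else y, z⁆) x

/-- A restricted Lie algebra over `F` of characteristic `p`, in the sense of Jacobson. The last sum is
`∑ s_i(x, y)`: the number `i s_i(x, y)` is the coefficient of `λ ^ (i - 1)` in
`(ad (λ x + y)) ^ (p - 1) (x)`, the sum of the nested brackets with `i - 1` letters `x`. -/
structure Restricted (F L : Type u) [Field F] [LieRing L] [LieAlgebra F L] (p : ℕ) where
  pmap : L → L
  smul : ∀ (c : F) (x : L), pmap (c • x) = c ^ p • pmap x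
  ad : ∀ x y : L, ⁅pmap x, y⁆ = (fun z => ⁅x, z⁆)^[p] y
  add : ∀ x y : L, pmap (x + y) = pmap x + pmap y +
    ∑ f : Fin (p - 1) → Bool, ((((List.ofFn f).count true + 1 : ℕ) : F)⁻¹) • nest x y (List.ofFn f)

variable [LieAlgebra F L]

/-- `L` is `p`-nilpotent. -/
def Restricted.IsPNilpotent {p : ℕ} (P : Restricted F L p) : Prop :=
  ∀ x, ∃ n, 1 ≤ n ∧ P.pmap^[n] x = 0

/-- The relations `x ^ p = x^[p]` in the universal enveloping algebra. The restricted enveloping
algebra is `RingQuot P.Rel`. -/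
inductive Restricted.Rel {p : ℕ} (P : Restricted F L p) :
    UniversalEnvelopingAlgebra F L → UniversalEnvelopingAlgebra F L → Prop
  | pow (x : L) : P.Rel (UniversalEnvelopingAlgebra.ι F x ^ p)
      (UniversalEnvelopingAlgebra.ι F (P.pmap x))

/-- `L` is nilpotent of class `c`; `LieModule.lowerCentralSeries F L L d` is `γ_{d+1}(L)`. -/
def HasClass (F L : Type u) [Field F] [LieRing L] [LieAlgebra F L] (c : ℕ) : Prop :=
  LieModule.lowerCentralSeries F L L c = ⊥ ∧ ∀ d < c, LieModule.lowerCentralSeries F L L d ≠ ⊥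

end defs

/-! ### The Lie algebras -/

section example1

variable {F : Type u} [Field F]

/-- The space with basis `x, y, a, u, z, w`. -/
def G {F : Type u} (_ : F) : Type u := Fin 6 → F

variable (κ : F)

instance : AddCommGroup (G κ) := inferInstanceAs (AddCommGroup (Fin 6 → F))
instance : Module F (G κ) := inferInstanceAs (Module F (Fin 6 → F))
instance : FiniteDimensional F (G κ) := inferInstanceAs (FiniteDimensional F (Fin 6 → F))

variable {κ}

@[ext] theorem G.ext {v w : G κ} (h : ∀ i, v i = w i) : v = w := funext h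

@[simp] theorem add_ap (v w : G κ) (i) : (v + w) i = v i + w i := rfl
@[simp] theorem smul_ap (c : F) (v : G κ) (i) : (c • v) i = c * v i := rfl
@[simp] theorem zero_ap (i) : (0 : G κ) i = 0 := rfl

instance : Bracket (G κ) (G κ) :=
  ⟨fun v w => ![0, 0, 0, v 0 * w 2 - w 0 * v 2, v 0 * w 1 - w 0 * v 1,
    κ * (v 0 * w 4 - w 0 * v 4)]⟩

@[simp] theorem br0 (v w : G κ) : ⁅v, w⁆ 0 = 0 := rfl
@[simp] theorem br1 (v w : G κ) : ⁅v, w⁆ 1 = 0 := rfl
@[simp] theorem br2 (v w : G κ) : ⁅v, w⁆ 2 = 0 := rfl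
@[simp] theorem br3 (v w : G κ) : ⁅v, w⁆ 3 = v 0 * w 2 - w 0 * v 2 := rfl
@[simp] theorem br4 (v w : G κ) : ⁅v, w⁆ 4 = v 0 * w 1 - w 0 * v 1 := rfl
@[simp] theorem br5 (v w : G κ) : ⁅v, w⁆ 5 = κ * (v 0 * w 4 - w 0 * v 4) := rfl

instance : LieRing (G κ) where
  add_lie v w t := by
    ext i; fin_cases i <;> simp <;> ring
  lie_add v w t := by
    ext i; fin_cases i <;> simp <;> ring
  lie_self v := by
    ext i; fin_cases i <;> simp
  leibniz_lie v w t := by
    ext i; fin_cases i <;> simp <;> ring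

instance : LieAlgebra F (G κ) where
  lie_smul c v w := by
    ext i; fin_cases i <;> simp <;> ring

theorem triple (a b c v : G κ) : ⁅a, ⁅b, ⁅c, v⁆⁆⁆ = 0 := by
  ext i; fin_cases i <;> simp

theorem nest_eq_zero (x y : G κ) {l : List Bool} (hl : 3 ≤ l.length) : nest x y l = 0 := by
  match l, hl with
  | a :: b :: c :: l, _ => exact triple _ _ _ _

/-- The `p`-map. -/
def pm (p : ℕ) (v : G κ) : G κ := ![0, 0, 0, 0, 0, v 3 ^ p]

variable (p : ℕ)

@[simp] theorem pm0 (v : G κ) : pm p v 0 = 0 := rfl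
@[simp] theorem pm1 (v : G κ) : pm p v 1 = 0 := rfl
@[simp] theorem pm2 (v : G κ) : pm p v 2 = 0 := rfl
@[simp] theorem pm3 (v : G κ) : pm p v 3 = 0 := rfl
@[simp] theorem pm4 (v : G κ) : pm p v 4 = 0 := rfl
@[simp] theorem pm5 (v : G κ) : pm p v 5 = v 3 ^ p := rfl

theorem pm_br (v w : G κ) : ⁅pm p v, w⁆ = 0 := by
  ext i; fin_cases i <;> simp

theorem iter_br (x y : G κ) (n : ℕ) (hn : 3 ≤ n) : (fun z : G κ => ⁅x, z⁆)^[n] y = 0 := by
  obtain ⟨m, rfl⟩ : ∃ m, n = m + 3 := ⟨n - 3, by omega⟩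
  rw [Function.iterate_add_apply]
  have h1 : (fun z : G κ => ⁅x, z⁆)^[3] y = 0 := triple x x x y
  rw [h1]
  induction m with
  | zero => rfl
  | succ m ih => rw [Function.iterate_succ_apply', ih (by omega)]; exact lie_zero x

variable (κ)

def rest [hp : Fact p.Prime] [CharP F p] (hp3 : 3 < p) : Restricted F (G κ) p where
  pmap := pm p
  smul c x := by
    ext i; fin_cases i <;> simp [mul_pow]
  ad x y := by rw [pm_br, iter_br x y p (by omega)]
  add x y := by
    rw [Finset.sum_eq_zero fun f _ => by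
      rw [nest_eq_zero x y (by rw [List.length_ofFn]; omega), smul_zero], add_zero]
    ext i; fin_cases i <;> simp [add_pow_char]

theorem rest_nil [hp : Fact p.Prime] [CharP F p] (hp3 : 3 < p) :
    (rest κ p hp3).IsPNilpotent := by
  intro x
  refine ⟨2, by norm_num, ?_⟩
  change pm p (pm p x) = 0
  ext i; fin_cases i <;> simp [hp.out.ne_zero]

/-! ### The data of a homomorphism to an associative algebra -/

variable {κ}

/-- The relations of the generators. -/
structure IsData {A : Type*} [Ring A] [Algebra F A] (κ : F) (p : ℕ) (d : Fin 6 → A) : Prop where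
  xy : d 0 * d 1 = d 1 * d 0 + d 4
  xa : d 0 * d 2 = d 2 * d 0 + d 3
  xu : d 0 * d 3 = d 3 * d 0
  xz : d 0 * d 4 = d 4 * d 0 + κ • d 5
  xw : d 0 * d 5 = d 5 * d 0
  comm : ∀ i j : Fin 5, Commute (d i.succ) (d j.succ)
  p0 : d 0 ^ p = 0
  p1 : d 1 ^ p = 0
  p2 : d 2 ^ p = 0
  p3 : d 3 ^ p = d 5
  p4 : d 4 ^ p = 0
  p5 : d 5 ^ p = 0

section toAlg

variable {p} {A : Type*} [Ring A] [Algebra F A] {d : Fin 6 → A} (hd : IsData κ p d)

/-- The linear map of the data. -/
def lin (d : Fin 6 → A) : G κ →ₗ[F] A where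
  toFun v := v 0 • d 0 + v 1 • d 1 + v 2 • d 2 + v 3 • d 3 + v 4 • d 4 + v 5 • d 5
  map_add' v w := by simp only [add_ap]; module
  map_smul' c v := by simp only [smul_ap, RingHom.id_apply]; module

theorem lin_apply (v : G κ) : lin d v =
    v 0 • d 0 + v 1 • d 1 + v 2 • d 2 + v 3 • d 3 + v 4 • d 4 + v 5 • d 5 := rfl

include hd

theorem IsData.c {i j : Fin 6} (hi : i ≠ 0) (hj : j ≠ 0) : d i * d j = d j * d i := by
  obtain ⟨i, rfl⟩ := Fin.exists_succ_eq.2 hi
  obtain ⟨j, rfl⟩ := Fin.exists_succ_eq.2 hj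
  exact hd.comm i j

theorem lin_lie (v w : G κ) : lin d ⁅v, w⁆ = lin d v * lin d w - lin d w * lin d v := by
  have h12 := hd.c (i := 2) (j := 1) (by decide) (by decide)
  have h13 := hd.c (i := 3) (j := 1) (by decide) (by decide)
  have h14 := hd.c (i := 4) (j := 1) (by decide) (by decide)
  have h15 := hd.c (i := 5) (j := 1) (by decide) (by decide)
  have h23 := hd.c (i := 3) (j := 2) (by decide) (by decide)
  have h24 := hd.c (i := 4) (j := 2) (by decide) (by decide)
  have h25 := hd.c (i := 5) (j := 2) (by decide) (by decide)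
  have h34 := hd.c (i := 4) (j := 3) (by decide) (by decide)
  have h35 := hd.c (i := 5) (j := 3) (by decide) (by decide)
  have h45 := hd.c (i := 5) (j := 4) (by decide) (by decide)
  simp only [lin_apply, br0, br1, br2, br3, br4, br5, add_mul, mul_add, smul_mul_smul_comm,
    hd.xy, hd.xa, hd.xu, hd.xz, hd.xw, h12, h13, h14, h15, h23, h24, h25, h34, h35, h45]
  module

theorem lin_pow [hp : Fact p.Prime] [CharP F p] (hp3 : 3 < p) (v : G κ) :
    lin d v ^ p = lin d (pm p v) := by
  nontriviality A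
  haveI : CharP A p := charP_of_injective_algebraMap (FaithfulSMul.algebraMap_injective F A) p
  have cc : ∀ {i j : Fin 6} (hi : i ≠ 0) (hj : j ≠ 0) (r s : F), Commute (r • d i) (s • d j) :=
    fun hi hj r s => ((show Commute _ _ from hd.c hi hj).smul_left r).smul_right s
  have e1 : lin d v = v 0 • d 0 + (v 1 • d 1 + (v 2 • d 2 + (v 3 • d 3 + (v 4 • d 4 + v 5 • d 5)))) := by
    rw [lin_apply]; abel
  have e2 : lin d (pm p v) = v 3 ^ p • d 5 := by
    rw [lin_apply]; simp
  rw [e1, e2, Pool.Agent.V1113.JacLite.jac (F := F) p hp3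
    (m1 := (v 0 * v 1) • d 4 + (v 0 * v 2) • d 3 + (v 0 * v 4 * κ) • d 5)
    (m2 := (v 0 * v 0 * v 1 * κ) • d 5)]
  · rw [add_pow_char_of_commute, add_pow_char_of_commute, add_pow_char_of_commute,
      add_pow_char_of_commute, smul_pow, smul_pow, smul_pow, smul_pow, smul_pow, smul_pow,
      hd.p0, hd.p1, hd.p2, hd.p3, hd.p4, hd.p5]
    · simp
    · exact cc (by decide) (by decide) _ _
    · exact (cc (by decide) (by decide) _ _).add_right (cc (by decide) (by decide) _ _)
    · exact (cc (by decide) (by decide) _ _).add_right ((cc (by decide) (by decide) _ _).add_right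
        (cc (by decide) (by decide) _ _))
    · exact (cc (by decide) (by decide) _ _).add_right ((cc (by decide) (by decide) _ _).add_right
        ((cc (by decide) (by decide) _ _).add_right (cc (by decide) (by decide) _ _)))
  · simp only [mul_add, add_mul, smul_mul_smul_comm, hd.xy, hd.xa, hd.xu, hd.xz, hd.xw]
    module
  · simp only [mul_add, add_mul, smul_mul_smul_comm, hd.xy, hd.xa, hd.xu, hd.xz, hd.xw]
    module
  · simp only [smul_mul_smul_comm, hd.xw]
    module
  · refine Commute.add_left ?_ (Commute.add_left ?_ (Commute.add_left ?_ (Commute.add_left ?_ ?_))) <;>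
    exact Commute.add_right (Commute.add_right (cc (by decide) (by decide) _ _)
      (cc (by decide) (by decide) _ _)) (cc (by decide) (by decide) _ _)
  · refine Commute.add_left ?_ (Commute.add_left ?_ (Commute.add_left ?_ (Commute.add_left ?_ ?_))) <;>
    exact cc (by decide) (by decide) _ _

end toAlg

/-! ### The homomorphism -/

section hom

attribute [local instance 100] LieRing.ofAssociativeRing

variable [hp : Fact p.Prime] [CharP F p] (hp3 : 3 < p)

/-- The restricted enveloping algebra. -/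
abbrev uu (κ : F) (p : ℕ) [hp : Fact p.Prime] [CharP F p] (hp3 : 3 < p) : Type u :=
  RingQuot (rest κ p hp3).Rel

/-- The image of an element of the Lie algebra. -/
noncomputable def el (κ : F) (v : G κ) : uu κ p hp3 :=
  RingQuot.mkAlgHom F _ (UniversalEnvelopingAlgebra.ι F v)

/-- The basis. -/
def bas (κ : F) (i : Fin 6) : G κ := Pi.single i 1

theorem el_add (v w : G κ) : el p hp3 κ (v + w) = el p hp3 κ v + el p hp3 κ w := by
  simp only [el, map_add]

theorem el_smul (c : F) (v : G κ) : el p hp3 κ (c • v) = c • el p hp3 κ v := by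
  simp only [el, map_smul]

theorem el_lie (v w : G κ) : el p hp3 κ ⁅v, w⁆ =
    el p hp3 κ v * el p hp3 κ w - el p hp3 κ w * el p hp3 κ v := by
  simp only [el, LieHom.map_lie, LieRing.of_associative_ring_bracket, map_sub, map_mul]

theorem el_pow (v : G κ) : el p hp3 κ v ^ p = el p hp3 κ (pm p v) := by
  rw [el, el, ← map_pow]
  exact RingQuot.mkAlgHom_rel F (Restricted.Rel.pow v)

variable {A : Type*} [Ring A] [Algebra F A] {d : Fin 6 → A}

/-- The algebra homomorphism of the data. -/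
noncomputable def toA (hd : IsData κ p d) : uu κ p hp3 →ₐ[F] A :=
  RingQuot.liftAlgHom F ⟨UniversalEnvelopingAlgebra.lift F
    { toLinearMap := lin d
      map_lie' := fun {v w} => by
        rw [LieRing.of_associative_ring_bracket]; exact lin_lie hd v w }, fun x y h => by
    obtain ⟨v⟩ := h
    rw [map_pow, UniversalEnvelopingAlgebra.lift_ι_apply, UniversalEnvelopingAlgebra.lift_ι_apply]
    exact lin_pow hd hp3 v⟩

theorem toA_el (hd : IsData κ p d) (v : G κ) : toA p hp3 hd (el p hp3 κ v) = lin d v := by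
  rw [toA, el, RingQuot.liftAlgHom_mkAlgHom_apply, UniversalEnvelopingAlgebra.lift_ι_apply]
  rfl

theorem hom_ext {f g : uu κ p hp3 →ₐ[F] A}
    (h : ∀ i, f (el p hp3 κ (bas κ i)) = g (el p hp3 κ (bas κ i))) : f = g := by
  apply RingQuot.ringQuot_ext'
  apply UniversalEnvelopingAlgebra.hom_ext
  apply LieHom.ext
  intro v
  change f (el p hp3 κ v) = g (el p hp3 κ v)
  have h1 : v = v 0 • bas κ 0 + v 1 • bas κ 1 + v 2 • bas κ 2 + v 3 • bas κ 3 + v 4 • bas κ 4 +
      v 5 • bas κ 5 := by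
    ext j
    fin_cases j <;> simp [bas]
  rw [h1]
  simp only [el_add, el_smul, map_add, map_smul, h]

/-- The canonical data. -/
theorem can (κ : F) : IsData κ p (fun i => el p hp3 κ (bas κ i)) where
  xy := by
    have h1 : ⁅bas κ 0, bas κ 1⁆ = bas κ 4 := by ext i; fin_cases i <;> simp [bas]
    have h2 := el_lie p hp3 (bas κ 0) (bas κ 1)
    rw [h1] at h2
    rw [h2]; abel
  xa := by
    have h1 : ⁅bas κ 0, bas κ 2⁆ = bas κ 3 := by ext i; fin_cases i <;> simp [bas]
    have h2 := el_lie p hp3 (bas κ 0) (bas κ 2)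
    rw [h1] at h2
    rw [h2]; abel
  xu := by
    have h1 : ⁅bas κ 0, bas κ 3⁆ = (0 : F) • bas κ 3 := by ext i; fin_cases i <;> simp [bas]
    have h2 := el_lie p hp3 (bas κ 0) (bas κ 3)
    rw [h1, el_smul, zero_smul] at h2
    exact sub_eq_zero.1 h2.symm
  xz := by
    have h1 : ⁅bas κ 0, bas κ 4⁆ = κ • bas κ 5 := by ext i; fin_cases i <;> simp [bas]
    have h2 := el_lie p hp3 (bas κ 0) (bas κ 4)
    rw [h1, el_smul] at h2
    rw [h2]; abel
  xw := by
    have h1 : ⁅bas κ 0, bas κ 5⁆ = (0 : F) • bas κ 3 := by ext i; fin_cases i <;> simp [bas]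
    have h2 := el_lie p hp3 (bas κ 0) (bas κ 5)
    rw [h1, el_smul, zero_smul] at h2
    exact sub_eq_zero.1 h2.symm
  comm i j := by
    have h0 : ∀ i : Fin 5, bas κ i.succ 0 = 0 := fun i => Pi.single_eq_of_ne (Fin.succ_ne_zero i).symm _
    have h1 : ⁅bas κ i.succ, bas κ j.succ⁆ = (0 : F) • bas κ 3 := by
      ext l; fin_cases l <;> simp [h0]
    have h2 := el_lie p hp3 (bas κ i.succ) (bas κ j.succ)
    rw [h1, el_smul, zero_smul] at h2
    exact sub_eq_zero.1 h2.symm
  p0 := by
    rw [el_pow]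
    have h1 : pm p (bas κ 0) = (0 : F) • bas κ 0 := by
      ext i; fin_cases i <;> simp [bas, hp.out.ne_zero]
    rw [h1, el_smul, zero_smul]
  p1 := by
    rw [el_pow]
    have h1 : pm p (bas κ 1) = (0 : F) • bas κ 0 := by
      ext i; fin_cases i <;> simp [bas, hp.out.ne_zero]
    rw [h1, el_smul, zero_smul]
  p2 := by
    rw [el_pow]
    have h1 : pm p (bas κ 2) = (0 : F) • bas κ 0 := by
      ext i; fin_cases i <;> simp [bas, hp.out.ne_zero]
    rw [h1, el_smul, zero_smul]
  p3 := by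
    rw [el_pow]
    have h1 : pm p (bas κ 3) = bas κ 5 := by
      ext i; fin_cases i <;> simp [bas]
    rw [h1]
  p4 := by
    rw [el_pow]
    have h1 : pm p (bas κ 4) = (0 : F) • bas κ 0 := by
      ext i; fin_cases i <;> simp [bas, hp.out.ne_zero]
    rw [h1, el_smul, zero_smul]
  p5 := by
    rw [el_pow]
    have h1 : pm p (bas κ 5) = (0 : F) • bas κ 0 := by
      ext i; fin_cases i <;> simp [bas, hp.out.ne_zero]
    rw [h1, el_smul, zero_smul]

/-- The change of variables. -/
noncomputable def tr (p : ℕ) (s : F) (d : Fin 6 → A) : Fin 6 → A :=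
  ![d 0, d 1 - (s / 2) • (d 2 ^ 2 * d 3 ^ (p - 2)), d 2, d 3, d 4 - s • (d 2 * d 3 ^ (p - 1)), d 5]

include hp3 in
theorem isData_tr {κ' : F} (hd : IsData κ p d) : IsData κ' p (tr p (κ - κ') d) := by
  have h2 : (2 : F) ≠ 0 := by
    intro h
    have := (CharP.cast_eq_zero_iff F p 2).1 (by exact_mod_cast h)
    exact absurd (Nat.le_of_dvd (by norm_num) this) (by omega)
  obtain ⟨q, hq⟩ : ∃ q, p = q + 2 := ⟨p - 2, by omega⟩
  have hq1 : p - 1 = q + 1 := by omega
  have hq2 : p - 2 = q := by omega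
  have hc : ∀ {i j : Fin 6} (hi : i ≠ 0) (hj : j ≠ 0), Commute (d i) (d j) := fun hi hj => hd.c hi hj
  set s := κ - κ' with hs
  set Y := d 2 ^ 2 * d 3 ^ (p - 2) with hY
  set Z := d 2 * d 3 ^ (p - 1) with hZ
  have cY : ∀ {j : Fin 6}, j ≠ 0 → Commute Y (d j) := fun hj =>
    ((hc (by decide) hj).pow_left 2).mul_left ((hc (by decide) hj).pow_left _)
  have cZ : ∀ {j : Fin 6}, j ≠ 0 → Commute Z (d j) := fun hj =>
    (hc (by decide) hj).mul_left ((hc (by decide) hj).pow_left _)
  have cYZ : Commute Y Z := (cY (by decide)).mul_right ((cY (by decide)).pow_right _)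
  have xun : ∀ n, d 0 * d 3 ^ n = d 3 ^ n * d 0 := fun n =>
    (show Commute _ _ from hd.xu).pow_right n
  have xY : d 0 * Y = Y * d 0 + (2 : F) • Z := by
    have e1 : d 0 * d 2 ^ 2 = d 2 ^ 2 * d 0 + (2 : F) • (d 2 * d 3) := by
      rw [pow_two, ← mul_assoc, hd.xa, add_mul, mul_assoc, hd.xa, mul_add,
        (hc (i := 3) (j := 2) (by decide) (by decide)).eq, two_smul]
      noncomm_ring
    rw [hY, hZ, hq1, hq2, ← mul_assoc, e1, add_mul, mul_assoc (d 2 ^ 2), xun, smul_mul_assoc,
      pow_succ' (d 3) q]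
    simp only [mul_assoc]
  have xZ : d 0 * Z = Z * d 0 + d 5 := by
    rw [hZ, hq1, ← mul_assoc, hd.xa, add_mul, mul_assoc, xun, ← mul_assoc, ← hd.p3,
      hq, ← pow_succ']
  have e0 : tr p s d 0 = d 0 := rfl
  have e1 : tr p s d 1 = d 1 - (s / 2) • Y := rfl
  have e2 : tr p s d 2 = d 2 := rfl
  have e3 : tr p s d 3 = d 3 := rfl
  have e4 : tr p s d 4 = d 4 - s • Z := rfl
  have e5 : tr p s d 5 = d 5 := rfl
  have L1 : ∀ x, (∀ j, j ≠ 0 → Commute x (d j)) → Commute x Y → Commute x Z →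
      ∀ i : Fin 5, Commute x (tr p s d i.succ) := by
    intro x hx hxY hxZ i
    fin_cases i
    · exact (hx 1 (by decide)).sub_right (hxY.smul_right _)
    · exact hx 2 (by decide)
    · exact hx 3 (by decide)
    · exact (hx 4 (by decide)).sub_right (hxZ.smul_right _)
    · exact hx 5 (by decide)
  rcases subsingleton_or_nontrivial A with hA | hA
  · exact ⟨Subsingleton.elim _ _, Subsingleton.elim _ _, Subsingleton.elim _ _, Subsingleton.elim _ _,
      Subsingleton.elim _ _, fun _ _ => Subsingleton.elim _ _, Subsingleton.elim _ _,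
      Subsingleton.elim _ _, Subsingleton.elim _ _, Subsingleton.elim _ _, Subsingleton.elim _ _,
      Subsingleton.elim _ _⟩
  haveI : CharP A p := charP_of_injective_algebraMap (FaithfulSMul.algebraMap_injective F A) p
  have d2p : (d 2 ^ 2) ^ p = 0 := by rw [← pow_mul, mul_comm, pow_mul, hd.p2, zero_pow (by norm_num)]
  have Yp : Y ^ p = 0 := by
    rw [hY, Commute.mul_pow (((hc (by decide) (by decide)).pow_left 2).pow_right _), d2p, zero_mul]
  have Zp : Z ^ p = 0 := by
    rw [hZ, Commute.mul_pow ((hc (by decide) (by decide)).pow_right _), hd.p2, zero_mul]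
  refine ⟨?_, ?_, ?_, ?_, ?_, ?_, ?_, ?_, ?_, ?_, ?_, ?_⟩
  · rw [e0, e1, e4, mul_sub, mul_smul_comm, xY, hd.xy, sub_mul, smul_mul_assoc, smul_add, smul_smul,
      div_mul_cancel₀ _ h2]
    abel
  · rw [e0, e2, e3]; exact hd.xa
  · rw [e0, e3]; exact hd.xu
  · rw [e0, e4, e5, mul_sub, mul_smul_comm, xZ, hd.xz, sub_mul, smul_mul_assoc, hs]
    module
  · rw [e0, e5]; exact hd.xw
  · intro i j
    refine L1 _ (fun l hl => (L1 (d l) (fun j hj => hc hl hj) (cY hl).symm (cZ hl).symm i).symm)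
      (L1 Y (fun j hj => cY hj) (Commute.refl _) cYZ i).symm
      (L1 Z (fun j hj => cZ hj) cYZ.symm (Commute.refl _) i).symm j
  · rw [e0]; exact hd.p0
  · rw [e1, sub_pow_char_of_commute _ ((cY (by decide)).symm.smul_right _), smul_pow, Yp, hd.p1]; simp
  · rw [e2]; exact hd.p2
  · rw [e3, e5]; exact hd.p3
  · rw [e4, sub_pow_char_of_commute _ ((cZ (by decide)).symm.smul_right _), smul_pow, Zp, hd.p4]; simp
  · rw [e5]; exact hd.p5

theorem lin_bas (κ : F) (d : Fin 6 → A) (i : Fin 6) : lin d (bas κ i) = d i := by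
  rw [lin_apply]
  fin_cases i <;> simp [bas]

/-- The homomorphism between the restricted enveloping algebras. -/
noncomputable def mapp (κ κ' : F) : uu κ p hp3 →ₐ[F] uu κ' p hp3 :=
  toA p hp3 (isData_tr (κ' := κ) p hp3 (can p hp3 κ'))

theorem mapp_el (κ κ' : F) (i : Fin 6) : mapp p hp3 κ κ' (el p hp3 κ (bas κ i)) =
    tr p (κ' - κ) (fun i => el p hp3 κ' (bas κ' i)) i := by
  rw [mapp, toA_el, lin_bas]

theorem comp_id (κ κ' : F) :
    (mapp p hp3 κ' κ).comp (mapp p hp3 κ κ') = AlgHom.id F (uu κ p hp3) := by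
  have h : ∀ i : Fin 6, mapp p hp3 κ' κ (el p hp3 κ' (bas κ' i)) =
    tr p (κ - κ') (fun i => el p hp3 κ (bas κ i)) i := mapp_el p hp3 κ' κ
  have h0 := h 0
  have h1 := h 1
  have h2 := h 2
  have h3 := h 3
  have h4 := h 4
  have h5 := h 5
  simp only [tr] at h0 h1 h2 h3 h4 h5
  refine hom_ext p hp3 fun i => ?_
  rw [AlgHom.comp_apply, mapp_el, AlgHom.id_apply]
  fin_cases i
  · exact h0
  · change mapp p hp3 κ' κ (el p hp3 κ' (bas κ' 1) - ((κ' - κ) / 2) •
      (el p hp3 κ' (bas κ' 2) ^ 2 * el p hp3 κ' (bas κ' 3) ^ (p - 2))) = el p hp3 κ (bas κ 1)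
    rw [map_sub, map_smul, map_mul, map_pow, map_pow, h1, h2, h3]
    change (el p hp3 κ (bas κ 1) - ((κ - κ') / 2) •
      (el p hp3 κ (bas κ 2) ^ 2 * el p hp3 κ (bas κ 3) ^ (p - 2))) - ((κ' - κ) / 2) •
      (el p hp3 κ (bas κ 2) ^ 2 * el p hp3 κ (bas κ 3) ^ (p - 2)) = el p hp3 κ (bas κ 1)
    module
  · exact h2
  · exact h3
  · change mapp p hp3 κ' κ (el p hp3 κ' (bas κ' 4) - (κ' - κ) •
      (el p hp3 κ' (bas κ' 2) * el p hp3 κ' (bas κ' 3) ^ (p - 1))) = el p hp3 κ (bas κ 4)
    rw [map_sub, map_smul, map_mul, map_pow, h4, h2, h3]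
    change (el p hp3 κ (bas κ 4) - (κ - κ') •
      (el p hp3 κ (bas κ 2) * el p hp3 κ (bas κ 3) ^ (p - 1))) - (κ' - κ) •
      (el p hp3 κ (bas κ 2) * el p hp3 κ (bas κ 3) ^ (p - 1)) = el p hp3 κ (bas κ 4)
    module
  · exact h5

/-- The isomorphism. -/
theorem iso (κ κ' : F) : Nonempty (uu κ p hp3 ≃ₐ[F] uu κ' p hp3) :=
  ⟨AlgEquiv.ofAlgHom (mapp p hp3 κ κ') (mapp p hp3 κ' κ) (comp_id p hp3 κ' κ) (comp_id p hp3 κ κ')⟩

end hom

/-! ### The nilpotence classes -/

/-- The elements whose coordinates below `n` vanish, for `n ≥ 3`. -/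
def low (κ : F) (n : ℕ) (hn : 3 ≤ n) : LieSubmodule F (G κ) (G κ) where
  carrier := {v | ∀ i : Fin 6, (i : ℕ) < n → v i = 0}
  add_mem' := by intro v w hv hw i hi; simp [hv i hi, hw i hi]
  zero_mem' := by intro i hi; rfl
  smul_mem' := by intro c v hv i hi; simp [hv i hi]
  lie_mem := by
    intro x v hv i hi
    have h0 := hv 0 (by simp; omega)
    have h1 := hv 1 (by simp; omega)
    have h2 := hv 2 (by simp; omega)
    fin_cases i
    · rfl
    · rfl
    · rfl
    · simp [h0, h2]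
    · simp [h0, h1]
    · have h4 := hv 4 (by simp at hi ⊢; omega)
      simp [h0, h4]

theorem lcs1 (κ : F) : LieModule.lowerCentralSeries F (G κ) (G κ) 1 ≤ low κ 3 le_rfl := by
  rw [LieModule.lowerCentralSeries_succ, LieSubmodule.lie_le_iff]
  intro x _ v _ i hi
  fin_cases i
  · rfl
  · rfl
  · rfl
  · simp at hi
  · simp at hi
  · simp at hi

theorem lcs2 (κ : F) : LieModule.lowerCentralSeries F (G κ) (G κ) 2 ≤ low κ 5 (by norm_num) := by
  rw [LieModule.lowerCentralSeries_succ, LieSubmodule.lie_le_iff]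
  intro x _ v hv i hi
  have hv' := lcs1 κ hv
  have h0 := hv' 0 (by simp)
  have h1 := hv' 1 (by simp)
  have h2 := hv' 2 (by simp)
  fin_cases i
  · rfl
  · rfl
  · rfl
  · simp [h0, h2]
  · simp [h0, h1]
  · simp at hi

theorem lcs2' : LieModule.lowerCentralSeries F (G (0 : F)) (G (0 : F)) 2 = ⊥ := by
  rw [eq_bot_iff, LieModule.lowerCentralSeries_succ, LieSubmodule.lie_le_iff]
  intro x _ v hv
  have hv' := lcs1 0 hv
  have h0 := hv' 0 (by simp)
  have h1 := hv' 1 (by simp)
  have h2 := hv' 2 (by simp)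
  rw [LieSubmodule.mem_bot]
  ext i
  fin_cases i <;> simp [h0, h1, h2]

theorem lcs3 (κ : F) : LieModule.lowerCentralSeries F (G κ) (G κ) 3 = ⊥ := by
  rw [eq_bot_iff, LieModule.lowerCentralSeries_succ, LieSubmodule.lie_le_iff]
  intro x _ v hv
  have hv' := lcs2 κ hv
  have h0 := hv' 0 (by simp)
  have h1 := hv' 1 (by simp)
  have h2 := hv' 2 (by simp)
  have h4 := hv' 4 (by simp)
  rw [LieSubmodule.mem_bot]
  ext i
  fin_cases i <;> simp [h0, h1, h2, h4]

theorem mem1 (κ : F) : bas κ 4 ∈ LieModule.lowerCentralSeries F (G κ) (G κ) 1 := by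
  have h1 : ⁅bas κ 0, bas κ 1⁆ = bas κ 4 := by ext i; fin_cases i <;> simp [bas]
  rw [← h1, LieModule.lowerCentralSeries_succ]
  exact LieSubmodule.lie_mem_lie (LieSubmodule.mem_top _) (LieSubmodule.mem_top _)

theorem mem2 : bas (1 : F) 5 ∈ LieModule.lowerCentralSeries F (G (1 : F)) (G (1 : F)) 2 := by
  have h1 : ⁅bas (1 : F) 0, bas (1 : F) 4⁆ = bas (1 : F) 5 := by
    ext i; fin_cases i <;> simp [bas]
  rw [← h1, LieModule.lowerCentralSeries_succ]
  exact LieSubmodule.lie_mem_lie (LieSubmodule.mem_top _) (mem1 _)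

end example1

/-- The main result. -/
theorem result : ∀ (p : ℕ), p.Prime → 3 < p → ∀ (F : Type u) [Field F] [CharP F p],
    ∃ (L H : Type u) (_ : LieRing L) (_ : LieAlgebra F L) (_ : LieRing H) (_ : LieAlgebra F H)
      (P : Restricted F L p) (Q : Restricted F H p),
      FiniteDimensional F L ∧ FiniteDimensional F H ∧ P.IsPNilpotent ∧ Q.IsPNilpotent ∧
      Nonempty (RingQuot P.Rel ≃ₐ[F] RingQuot Q.Rel) ∧ HasClass F L 2 ∧ HasClass F H 3 := by
  intro p hp hp3 F _ _
  haveI : Fact p.Prime := ⟨hp⟩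
  refine ⟨G (0 : F), G (1 : F), inferInstance, inferInstance, inferInstance, inferInstance,
    rest 0 p hp3, rest 1 p hp3, inferInstance, inferInstance, rest_nil 0 p hp3, rest_nil 1 p hp3,
    iso p hp3 0 1, ⟨lcs2', fun d hd h => ?_⟩, ⟨lcs3 1, fun d hd h => ?_⟩⟩
  · have h1 := LieModule.antitone_lowerCentralSeries F (G (0 : F)) (G (0 : F))
      (Nat.le_of_lt_succ hd) (mem1 0)
    rw [h, LieSubmodule.mem_bot] at h1
    have h2 := congrFun h1 4
    change (Pi.single 4 1 : Fin 6 → F) 4 = 0 at h2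
    simp at h2
  · have h1 := LieModule.antitone_lowerCentralSeries F (G (1 : F)) (G (1 : F))
      (Nat.le_of_lt_succ hd) mem2
    rw [h, LieSubmodule.mem_bot] at h1
    have h2 := congrFun h1 5
    change (Pi.single 5 1 : Fin 6 → F) 5 = 0 at h2
    simp at h2

end Pool.Agent.Results.MP_26769e_al.ClassNotDetermined
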